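import Mathlib

set_option autoImplicit false

/-!
# Graphs on `k` vertices with few edges: the degree profile
-/

namespace Pool.Agent.Helper76.DC

open Finset

/-- The combinatorial core: a function with the properties of the degree function of a graph on
`k` vertices with degree sum at most `(k - 1) (s + 2)`. -/
theorem profile_of_sum {V : Type} [DecidableEq V] (X : Finset V) (k s : ℕ) (hk : 1 ≤ k)
    (hX : X.card = k) (f : V → ℕ) (hf : ∀ x ∈ X, f x + 1 ≤ k)
    (hsum : ∑ x ∈ X, f x ≤ (k - 1) * (s + 2))
    (hfull : ∀ z ∈ X, ((X.erase z).filter fun x => k ≤ f x + 1).card ≤ f z) :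
    ∃ e : ℕ, ∀ d : ℕ, 1 ≤ d → d ≤ k → d ≤ (X.filter fun x => f x < d + s).card +
      (if d = e then 1 else 0) := by
  have hsplit : ∀ d, (X.filter fun x => f x < d).card + (X.filter fun x => ¬ f x < d).card = k := by
    intro d
    rw [← hX]
    exact card_filter_add_card_filter_not _
  have hmul : ∀ d, (X.filter fun x => ¬ f x < d).card * d ≤ ∑ x ∈ X, f x := by
    intro d
    have h1 : (X.filter fun x => ¬ f x < d).card • d ≤ ∑ x ∈ X.filter (fun x => ¬ f x < d), f x :=
      card_nsmul_le_sum _ _ _ fun x hx => not_lt.mp (mem_filter.mp hx).2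
    rw [smul_eq_mul] at h1
    exact h1.trans (sum_le_sum_of_subset (filter_subset _ _))
  -- the values `d ≥ 3`
  have hbig : ∀ d, 3 ≤ d → d ≤ k → d ≤ (X.filter fun x => f x < d + s).card := by
    intro d hd3 hdk
    by_contra hcon
    push Not at hcon
    have h1 := hsplit (d + s)
    have h2 : k - d + 1 ≤ (X.filter fun x => ¬ f x < d + s).card := by omega
    rcases Nat.lt_or_ge (d + s + 1) k with h3 | h3
    · -- `d + s ≤ k - 2`
      have h4 := hmul (d + s)
      have h5 : (k - d + 1) * (d + s) ≤ (k - 1) * (s + 2) :=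
        (Nat.mul_le_mul_right _ h2).trans (h4.trans hsum)
      obtain ⟨a, rfl⟩ : ∃ a, d = a + 3 := ⟨d - 3, by omega⟩
      obtain ⟨b, rfl⟩ : ∃ b, k = a + 3 + s + 2 + b := ⟨k - (a + 3) - s - 2, by omega⟩
      have e1 : a + 3 + s + 2 + b - (a + 3) + 1 = s + b + 3 := by omega
      have e2 : a + 3 + s + 2 + b - 1 = a + b + s + 4 := by omega
      rw [e1, e2] at h5
      have e3 : (s + b + 3) * (a + 3 + s) = (a + b + s + 4) * (s + 2) + (a * b + a + b + 1) := by
        ring
      rw [e3] at h5
      omega
    · rcases Nat.lt_or_ge (d + s) k with h4 | h4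
      · -- `d + s = k - 1`
        set F := X.filter fun x => ¬ f x < d + s with hF
        have hFX : F ⊆ X := filter_subset _ _
        have h5 : F.card * (d + s) ≤ ∑ x ∈ F, f x := by
          have h1 : F.card • (d + s) ≤ ∑ x ∈ F, f x :=
            card_nsmul_le_sum _ _ _ fun x hx => not_lt.mp (mem_filter.mp hx).2
          rwa [smul_eq_mul] at h1
        have h6 : (X \ F).card * F.card ≤ ∑ x ∈ X \ F, f x := by
          have h1 : (X \ F).card • F.card ≤ ∑ x ∈ X \ F, f x := by
            refine card_nsmul_le_sum _ _ _ fun z hz => ?_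
            obtain ⟨hzX, hzF⟩ := mem_sdiff.mp hz
            refine le_trans (card_le_card ?_) (hfull z hzX)
            intro x hx
            obtain ⟨hx1, hx2⟩ := mem_filter.mp hx
            refine mem_filter.mpr ⟨mem_erase.mpr ⟨?_, hx1⟩, by omega⟩
            rintro rfl
            exact hzF hx
          rwa [smul_eq_mul] at h1
        have h7 : ∑ x ∈ X \ F, f x + ∑ x ∈ F, f x = ∑ x ∈ X, f x := sum_sdiff hFX
        have h8 : (X \ F).card + F.card = k := by
          rw [← hX]
          exact card_sdiff_add_card_eq_card hFX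
        obtain ⟨q, hq⟩ : ∃ q, F.card = s + 2 + q := ⟨F.card - (s + 2), by omega⟩
        have h9 : F.card * (d + s) + (X \ F).card * F.card ≤ (k - 1) * (s + 2) := by omega
        have e1 : d + s = k - 1 := by omega
        rw [e1, hq] at h9
        have e2 : (s + 2 + q) * (k - 1) = (k - 1) * (s + 2) + q * (k - 1) := by ring
        rw [e2] at h9
        have h10 : q * (k - 1) + (X \ F).card * (s + 2 + q) = 0 := by omega
        have h11 : (X \ F).card = 0 := by
          rcases Nat.eq_zero_or_pos (X \ F).card with h | h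
          · exact h
          · have : 0 < (X \ F).card * (s + 2 + q) := Nat.mul_pos h (by omega)
            omega
        have h12 : 0 < q * (k - 1) := Nat.mul_pos (by omega) (by omega)
        omega
      · -- `k ≤ d + s`
        obtain ⟨x, hx⟩ := card_pos.mp (show 0 < (X.filter fun x => ¬ f x < d + s).card by omega)
        obtain ⟨hxX, hx2⟩ := mem_filter.mp hx
        have := hf x hxX
        omega
  by_cases h2 : 2 ≤ (X.filter fun x => f x < 2 + s).card ∨ k < 2
  · refine ⟨1, fun d hd1 hdk => ?_⟩
    rcases Nat.lt_or_ge d 3 with h3 | h3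
    · have h4 : d = 1 ∨ d = 2 := by omega
      rcases h4 with rfl | rfl
      · simp
      · rcases h2 with h2 | h2
        · simpa using h2
        · omega
    · have := hbig d h3 hdk
      omega
  · push Not at h2
    obtain ⟨h2, h2'⟩ := h2
    have h3 := hsplit (2 + s)
    have h4 := hmul (2 + s)
    obtain ⟨m, rfl⟩ : ∃ m, k = m + 1 := ⟨k - 1, by omega⟩
    have h5 : (X.filter fun x => f x < 2 + s).card = 1 := by
      rcases Nat.eq_zero_or_pos (X.filter fun x => f x < 2 + s).card with h | h
      · exfalso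
        have h5 : (X.filter fun x => ¬ f x < 2 + s).card = m + 1 := by omega
        rw [h5] at h4
        have e1 : (m + 1) * (2 + s) = m * (s + 2) + (s + 2) := by ring
        have e2 : m + 1 - 1 = m := by omega
        rw [e2] at hsum
        omega
      · omega
    obtain ⟨x₀, hx₀⟩ := card_pos.mp (show 0 < (X.filter fun x => f x < 2 + s).card by omega)
    obtain ⟨hx₀X, hx₀2⟩ := mem_filter.mp hx₀
    have h6 : f x₀ = 0 := by
      have h7 : ∀ z ∈ X.erase x₀, 2 + s ≤ f z := by
        intro z hz
        obtain ⟨hz1, hz2⟩ := mem_erase.mp hz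
        by_contra hcon
        have h8 : z ∈ X.filter fun x => f x < 2 + s := mem_filter.mpr ⟨hz2, by omega⟩
        exact hz1 (card_le_one.mp h5.le z h8 x₀ hx₀)
      have h8 : (X.erase x₀).card • (2 + s) ≤ ∑ z ∈ X.erase x₀, f z := card_nsmul_le_sum _ _ _ h7
      rw [smul_eq_mul, card_erase_of_mem hx₀X, hX] at h8
      have h9 : f x₀ + ∑ z ∈ X.erase x₀, f z = ∑ z ∈ X, f z := add_sum_erase _ f hx₀X
      have e1 : (m + 1 - 1) * (2 + s) = (m + 1 - 1) * (s + 2) := by ring
      omega
    refine ⟨2, fun d hd1 hdk => ?_⟩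
    rcases Nat.lt_or_ge d 3 with h7 | h7
    · have h8 : d = 1 ∨ d = 2 := by omega
      rcases h8 with rfl | rfl
      · have h9 : x₀ ∈ X.filter fun x => f x < 1 + s := mem_filter.mpr ⟨hx₀X, by omega⟩
        have h10 := card_pos.mpr ⟨x₀, h9⟩
        omega
      · simp only [if_true]
        omega
    · have := hbig d h7 hdk
      omega

/-- degrees inside `X` and edges of the induced graph -/
theorem sum_inner {V : Type} (G : SimpleGraph V) (X : Finset V) :
    ∑ x ∈ X, {y : V | G.Adj x y ∧ y ∈ X}.ncard =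
      2 * (G.induce {v | v ∈ X}).edgeSet.ncard := by
  classical
  have : Fintype {v | v ∈ X} := inferInstanceAs (Fintype {v // v ∈ X})
  have h1 := (G.induce {v | v ∈ X}).sum_degrees_eq_twice_card_edges
  have h2 : (G.induce {v | v ∈ X}).edgeSet.ncard = #(G.induce {v | v ∈ X}).edgeFinset := by
    rw [← SimpleGraph.coe_edgeFinset, Set.ncard_coe_finset]
  rw [h2, ← h1]
  have h3 : ∀ v : {v | v ∈ X}, (G.induce {v | v ∈ X}).degree v =
      {y : V | G.Adj v.1 y ∧ y ∈ X}.ncard := by
    intro v
    rw [← SimpleGraph.card_neighborFinset_eq_degree]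
    rw [← Set.ncard_coe_finset, SimpleGraph.coe_neighborFinset]
    rw [← Set.ncard_image_of_injective _ Subtype.val_injective]
    congr 1
    ext y
    simp only [Set.mem_image, SimpleGraph.mem_neighborSet, Set.mem_ofPred_eq]
    constructor
    · rintro ⟨w, hw, rfl⟩
      exact ⟨hw, w.2⟩
    · rintro ⟨h4, h5⟩
      exact ⟨⟨y, h5⟩, h4, rfl⟩
  simp_rw [h3]
  exact Finset.sum_subtype X (fun x => Iff.rfl) _

/-- acyclic graphs have fewer edges than vertices -/
theorem ncard_edge_of_acyclic {U : Type} [Finite U] [Nonempty U] (F : SimpleGraph U)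
    (hF : F.IsAcyclic) : F.edgeSet.ncard + 1 ≤ Nat.card U := by
  classical
  have : Fintype U := Fintype.ofFinite U
  obtain ⟨T, hFT, -, hT⟩ := (SimpleGraph.connected_top (V := U)).exists_isTree_le_of_le_of_isAcyclic
    le_top hF
  have h1 := hT.card_edgeFinset
  have h2 : F.edgeSet.ncard ≤ T.edgeSet.ncard :=
    Set.ncard_le_ncard (SimpleGraph.edgeSet_mono hFT) (Set.toFinite _)
  have h3 : T.edgeSet.ncard = #T.edgeFinset := by
    rw [← SimpleGraph.coe_edgeFinset, Set.ncard_coe_finset]
  rw [Nat.card_eq_fintype_card]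
  omega

end Pool.Agent.Helper76.DC
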