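import Pool.Agent.Helper76.DC.Setup

set_option autoImplicit false

/-!
# Popular roots
-/

namespace Pool.Agent.Helper76.DC

open Finset

theorem exists_popular {W P : Type} [Fintype W] [DecidableEq W] [Fintype P] (N : P → Finset W)
    (k : ℕ) (hk : k ≤ Fintype.card W) :
    ∃ R : Finset W, R.card = k ∧ ∀ r ∈ R, ∀ u, u ∉ R → mis N r ≤ mis N u := by
  classical
  have hne : (Finset.powersetCard k (univ : Finset W)).Nonempty := by
    apply Finset.powersetCard_nonempty.2
    simpa using hk
  obtain ⟨R, hR, hmin⟩ := Finset.exists_min_image (Finset.powersetCard k (univ : Finset W))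
    (fun R => ∑ u ∈ R, mis N u) hne
  have hRc : R.card = k := (Finset.mem_powersetCard.1 hR).2
  refine ⟨R, hRc, ?_⟩
  intro r hr u hu
  by_contra hlt
  push Not at hlt
  have hu' : u ∉ R.erase r := fun h => hu (Finset.mem_of_mem_erase h)
  have hcard : (insert u (R.erase r)).card = k := by
    rw [Finset.card_insert_of_notMem hu', Finset.card_erase_of_mem hr, hRc]
    have : 0 < k := by rw [← hRc]; exact Finset.card_pos.2 ⟨r, hr⟩
    omega
  have h := hmin (insert u (R.erase r)) (Finset.mem_powersetCard.2 ⟨Finset.subset_univ _, hcard⟩)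
  have e1 : ∑ x ∈ insert u (R.erase r), mis N x = mis N u + ∑ x ∈ R.erase r, mis N x :=
    Finset.sum_insert hu'
  have e2 : mis N r + ∑ x ∈ R.erase r, mis N x = ∑ x ∈ R, mis N x :=
    Finset.add_sum_erase R (fun x => mis N x) hr
  have h2 : ∑ x ∈ R, mis N x ≤ ∑ x ∈ insert u (R.erase r), mis N x := h
  rw [e1, ← e2] at h2
  omega

end Pool.Agent.Helper76.DC
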