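import Pool.Agent.Helper76.DC.Setup

set_option autoImplicit false

namespace Pool.Agent.Helper76.DC

open Finset

private theorem sum_mis {W P : Type} [DecidableEq W] [Fintype P] (N : P → Finset W)
    (D : Finset W) : (∑ u ∈ D, mis N u) = ∑ p : P, (D \ N p).card := by
  classical
  unfold mis
  simp only [Finset.card_filter]
  rw [Finset.sum_comm]
  refine Finset.sum_congr rfl fun p _ => ?_
  rw [← Finset.card_filter]
  congr 1
  ext u
  simp [Finset.mem_sdiff]

theorem bad_bounds {W P : Type} [DecidableEq W] [Fintype P] (N : P → Finset W) (k t : ℕ)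
    (hk : Fintype.card P = k) (htk : t < k) (h1 : ∀ p, 2 * k ≤ (N p).card + t)
    (R D : Finset W) (hpop : ∀ r ∈ R, ∀ u, u ∉ R → mis N r ≤ mis N u) (hD : Disjoint D R)
    (hbad : D.card < dead N k D) :
    D.card < k ∧ k ≤ D.card + t ∧ 1 ≤ t ∧ (∑ u ∈ D, mis N u) ≤ k * (t - 1) ∧
      ∀ r ∈ R, mis N r ≤ t - 1 := by
  classical
  set Z : Finset P := univ.filter fun p => (N p \ D).card ≤ k with hZ
  have hy : dead N k D = Z.card := rfl
  rw [hy] at hbad
  have hyk : Z.card ≤ k := by rw [← hk]; exact Finset.card_le_univ _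
  have hdk : D.card < k := lt_of_lt_of_le hbad hyk
  have hdp : ∀ p ∈ Z, (D \ N p).card + k ≤ D.card + t := by
    intro p hp
    have h2 : (N p \ D).card ≤ k := (Finset.mem_filter.1 hp).2
    have h3 := Finset.card_inter_add_card_sdiff (N p) D
    have h4 := Finset.card_inter_add_card_sdiff D (N p)
    have h5 : (N p ∩ D).card = (D ∩ N p).card := by rw [Finset.inter_comm]
    have h6 := h1 p
    omega
  have hZne : Z.Nonempty := by
    rw [← Finset.card_pos]; omega
  obtain ⟨p0, hp0⟩ := hZne
  have hkd : k ≤ D.card + t := by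
    have := hdp p0 hp0
    omega
  have ht1 : 1 ≤ t := by omega
  have hsum : (∑ u ∈ D, mis N u) + k ≤ t * (D.card + 1) := by
    rw [sum_mis]
    have h7 : ∑ p : P, (D \ N p).card = ∑ p ∈ Z, (D \ N p).card +
        ∑ p ∈ univ \ Z, (D \ N p).card := by
      rw [add_comm]
      exact (Finset.sum_sdiff (Finset.subset_univ Z)).symm
    have h8 : ∑ p ∈ Z, (D \ N p).card + Z.card * k ≤ Z.card * (D.card + t) := by
      have : ∑ p ∈ Z, ((D \ N p).card + k) ≤ ∑ _p ∈ Z, (D.card + t) :=
        Finset.sum_le_sum hdp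
      rw [Finset.sum_add_distrib, Finset.sum_const, Finset.sum_const, smul_eq_mul,
        smul_eq_mul] at this
      exact this
    have h9 : ∑ p ∈ univ \ Z, (D \ N p).card ≤ (k - Z.card) * D.card := by
      have h10 : ∑ p ∈ univ \ Z, (D \ N p).card ≤ ∑ _p ∈ univ \ Z, D.card :=
        Finset.sum_le_sum fun p _ => Finset.card_le_card Finset.sdiff_subset
      rw [Finset.sum_const, smul_eq_mul] at h10
      have h11 : (univ \ Z).card = k - Z.card := by
        rw [Finset.card_sdiff_of_subset (Finset.subset_univ Z), Finset.card_univ, hk]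
      rw [h11] at h10
      exact h10
    rw [h7]
    obtain ⟨s, hs⟩ : ∃ s, k = Z.card + s := ⟨k - Z.card, by omega⟩
    obtain ⟨a, ha⟩ : ∃ a, k = t + a := ⟨k - t, by omega⟩
    obtain ⟨b, hb⟩ : ∃ b, Z.card = D.card + 1 + b := ⟨Z.card - (D.card + 1), by omega⟩
    have h12 : k - Z.card = s := by omega
    rw [h12] at h9
    have h13 : b * t ≤ b * k := Nat.mul_le_mul_left _ htk.le
    generalize (∑ p ∈ Z, (D \ N p).card) = S1 at *
    generalize (∑ p ∈ univ \ Z, (D \ N p).card) = S2 at *
    generalize Z.card = y at *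
    generalize D.card = d at *
    subst hb
    nlinarith
  refine ⟨hdk, hkd, ht1, ?_, ?_⟩
  · obtain ⟨c, hc⟩ : ∃ c, t = c + 1 := ⟨t - 1, by omega⟩
    subst hc
    have h14 : (c + 1) * (D.card + 1) ≤ (c + 1) * k := Nat.mul_le_mul_left _ (by omega)
    have h15 : k * (c + 1 - 1) = c * k := by
      rw [Nat.add_sub_cancel, mul_comm]
    rw [h15]
    nlinarith
  · intro r hr
    by_contra hcon
    have h16 : ∀ u ∈ D, t ≤ mis N u := by
      intro u hu
      have h17 : u ∉ R := fun h => (Finset.disjoint_left.1 hD hu) h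
      have := hpop r hr u h17
      omega
    have h18 : D.card * t ≤ ∑ u ∈ D, mis N u := by
      have := Finset.card_nsmul_le_sum D (fun u => mis N u) t h16
      simpa using this
    nlinarith

end Pool.Agent.Helper76.DC
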