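import Pool.Agent.Helper76.DC.Setup

set_option autoImplicit false

namespace Pool.Agent.Helper76.DC

open Finset

theorem exists_special {W P : Type} [DecidableEq W] [Fintype P] [DecidableEq P]
    (N : P → Finset W) (k : ℕ) (hk : Fintype.card P = k)
    (h2 : ∀ Y : Finset P, Y.Nonempty → k + Y.card ≤ (Y.biUnion N).card)
    (A : Finset W) (q : ℕ) (hA : A.card + q = 2 * k) (hq : q ≤ k) :
    ∃ (J : Finset P) (w : P → W), J.card = q ∧ (∀ p ∈ J, w p ∈ N p ∧ w p ∉ A) ∧
      ∀ p ∈ J, ∀ p' ∈ J, w p = w p' → p = p' := by
  classical
  rcases isEmpty_or_nonempty P with hP | hP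
  · have hk0 : k = 0 := by rw [← hk]; exact Fintype.card_eq_zero
    have hq0 : q = 0 := by omega
    refine ⟨∅, fun p => isEmptyElim p, by simp [hq0], by simp, by simp⟩
  · obtain ⟨p0⟩ := hP
    have hW : Nonempty W := by
      have h := h2 {p0} (singleton_nonempty p0)
      rw [singleton_biUnion, card_singleton] at h
      have h' : 0 < (N p0).card := by omega
      obtain ⟨u, -⟩ := card_pos.mp h'
      exact ⟨u⟩
    obtain ⟨u0⟩ := hW
    let F : P → Finset (W ⊕ Fin (k - q)) := fun p => (N p \ A).disjSum univ
    have hall : ∀ s : Finset P, s.card ≤ (s.biUnion F).card := by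
      intro s
      rcases s.eq_empty_or_nonempty with rfl | hs
      · simp
      · have hsub : ((s.biUnion N) \ A).disjSum (univ : Finset (Fin (k - q))) ⊆ s.biUnion F := by
          intro z hz
          rw [mem_disjSum] at hz
          rw [mem_biUnion]
          rcases hz with ⟨u, hu, rfl⟩ | ⟨i, hi, rfl⟩
          · rw [mem_sdiff, mem_biUnion] at hu
            obtain ⟨⟨p, hp, hup⟩, huA⟩ := hu
            exact ⟨p, hp, inl_mem_disjSum.mpr (mem_sdiff.mpr ⟨hup, huA⟩)⟩
          · obtain ⟨p, hp⟩ := hs
            exact ⟨p, hp, inr_mem_disjSum.mpr hi⟩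
        have h1 := card_le_card hsub
        rw [card_disjSum, card_univ, Fintype.card_fin] at h1
        have h3 := h2 s hs
        have h4 := le_card_sdiff A (s.biUnion N)
        omega
    obtain ⟨f, hfi, hf⟩ := (all_card_le_biUnion_card_iff_exists_injective F).mp hall
    -- the players sent to the right
    let S : Finset P := univ.filter fun p => (f p).isLeft = true
    have hSc : k - q ≥ (univ.filter fun p => ¬ (f p).isLeft = true).card := by
      have h5 : ((univ.filter fun p => ¬ (f p).isLeft = true).image f).card
          ≤ ((univ : Finset (Fin (k - q))).map Function.Embedding.inr :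
              Finset (W ⊕ Fin (k - q))).card := by
        apply card_le_card
        intro z hz
        rw [mem_image] at hz
        obtain ⟨p, hp, rfl⟩ := hz
        rw [mem_filter] at hp
        rw [mem_map]
        rcases hfp : f p with u | i
        · exact absurd (by rw [hfp]; rfl) hp.2
        · exact ⟨i, mem_univ _, rfl⟩
      rw [card_image_of_injective _ hfi, card_map, card_univ, Fintype.card_fin] at h5
      exact h5
    have hsum : S.card + (univ.filter fun p => ¬ (f p).isLeft = true).card = k := by
      have h9 := card_filter_add_card_filter_not (s := (univ : Finset P))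
        (fun p => (f p).isLeft = true)
      rw [card_univ, hk] at h9
      exact h9
    have hSq : q ≤ S.card := by omega
    obtain ⟨J, hJS, hJ⟩ := exists_subset_card_eq hSq
    let w : P → W := fun p => Sum.elim id (fun _ => u0) (f p)
    have hw : ∀ p ∈ J, f p = Sum.inl (w p) := by
      intro p hp
      have h6 := hJS hp
      rw [mem_filter] at h6
      rcases hfp : f p with u | i
      · simp [w, hfp]
      · rw [hfp] at h6
        exact absurd h6.2 (by simp)
    refine ⟨J, w, hJ, ?_, ?_⟩
    · intro p hp
      have h7 := hf p
      rw [hw p hp] at h7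
      have h8 := inl_mem_disjSum.mp h7
      exact mem_sdiff.mp h8
    · intro p hp p' hp' h
      apply hfi
      rw [hw p hp, hw p' hp', h]

end Pool.Agent.Helper76.DC
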