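import Pool.Agent.Helper76.DC.Setup

set_option autoImplicit false

namespace Pool.Agent.Helper76.DC

open Finset

/-- M4 -/
theorem exists_roots {W P : Type} [DecidableEq W] [DecidableEq P]
    (N : P → Finset W) (k t q : ℕ) (A : Finset W) (hA : A.card + q = 2 * k)
    (J : Finset P) (hJ : J.card = q) (hqt : q * (t + 1) ≤ k) :
    ∃ R : Finset W, R ⊆ A ∧ R.card = k ∧
      ∀ p ∈ J, R ⊆ N p ∨ (R \ N p).card + t ≤ (A \ N p).card := by
  classical
  have hT : ∀ p : P, ∃ T : Finset W, T ⊆ A \ N p ∧ T.card = min t (A \ N p).card :=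
    fun p => exists_subset_card_eq (min_le_right _ _)
  choose T hTs hTc using hT
  have hcard : (J.biUnion T).card ≤ q * t := by
    calc (J.biUnion T).card ≤ ∑ p ∈ J, (T p).card := card_biUnion_le
      _ ≤ ∑ _p ∈ J, t := sum_le_sum fun p _ => by rw [hTc]; exact min_le_left _ _
      _ = q * t := by rw [sum_const, smul_eq_mul, hJ]
  have h1 : k ≤ (A \ J.biUnion T).card := by
    have h2 := le_card_sdiff (J.biUnion T) A
    have h3 : q * (t + 1) = q * t + q := by ring
    omega
  obtain ⟨R, hR, hRc⟩ := exists_subset_card_eq h1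
  refine ⟨R, hR.trans sdiff_subset, hRc, fun p hp => ?_⟩
  have hRT : Disjoint R (T p) := by
    rw [disjoint_left]
    intro u hu huT
    exact (mem_sdiff.mp (hR hu)).2 (mem_biUnion.mpr ⟨p, hp, huT⟩)
  by_cases hle : (A \ N p).card ≤ t
  · left
    have hTeq : T p = A \ N p :=
      eq_of_subset_of_card_le (hTs p) (by rw [hTc, min_eq_right hle])
    intro u hu
    by_contra hun
    refine disjoint_left.mp hRT hu ?_
    rw [hTeq]
    exact mem_sdiff.mpr ⟨(mem_sdiff.mp (hR hu)).1, hun⟩
  · right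
    push Not at hle
    have hTt : (T p).card = t := by rw [hTc, min_eq_left hle.le]
    have hdis : Disjoint (R \ N p) (T p) := hRT.mono_left sdiff_subset
    rw [← hTt, ← card_union_of_disjoint hdis]
    refine card_le_card (union_subset ?_ (hTs p))
    intro u hu
    obtain ⟨hu1, hu2⟩ := mem_sdiff.mp hu
    exact mem_sdiff.mpr ⟨(mem_sdiff.mp (hR hu1)).1, hu2⟩

end Pool.Agent.Helper76.DC
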