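import Pool.Agent.Helper76.DC.Setup

set_option autoImplicit false

namespace Pool.Agent.Helper76.DC

open Finset

/-- M5 -/
theorem crit_generic {W P : Type} [DecidableEq W] [Fintype P] [DecidableEq P]
    (N : P → Finset W) (k t q : ℕ) (hk : Fintype.card P = k)
    (h1 : ∀ p, 2 * k ≤ (N p).card + t)
    (A R : Finset W) (hA : A.card + q = 2 * k) (hRA : R ⊆ A) (hR : R.card = k)
    (J Q : Finset P) (hJ : J.card = q) (hJQ : Disjoint J Q) (hQ : t ≤ Q.card)
    (w : P → W) (hw : ∀ p ∈ J, w p ∈ N p ∧ w p ∉ A)
    (hwi : ∀ p ∈ J, ∀ p' ∈ J, w p = w p' → p = p')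
    (hroots : ∀ p ∈ J, R ⊆ N p ∨ (R \ N p).card + t ≤ (A \ N p).card) :
    Crit (fun p => if p ∈ Q then A else N p) k R := by
  classical
  intro D hD
  unfold dead
  set F := univ.filter (fun p : P => ((if p ∈ Q then A else N p) \ D).card ≤ k) with hF
  by_cases hDk : k ≤ D.card
  · refine le_trans (card_filter_le _ _) ?_
    rw [card_univ, hk]
    exact hDk
  push Not at hDk
  have hARc : (A \ R).card = A.card - R.card := card_sdiff_of_subset hRA
  have hRAc := card_le_card hRA
  by_cases hsub : A \ R ⊆ D
  · -- the generic players are dead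
    set D' := D \ (A \ R) with hD'
    have hD'c : D'.card = D.card - (A \ R).card := card_sdiff_of_subset hsub
    have hsubc := card_le_card hsub
    have hD'A : Disjoint D' A := by
      rw [disjoint_left]
      intro u hu huA
      obtain ⟨hu1, hu2⟩ := mem_sdiff.mp hu
      refine hu2 (mem_sdiff.mpr ⟨huA, fun huR => ?_⟩)
      exact disjoint_left.mp hD hu1 huR
    set J' := J.filter (fun p => w p ∉ D) with hJ'
    set J₁ := J.filter (fun p => ¬ w p ∉ D) with hJ₁
    have hJsplit : J'.card + J₁.card = J.card := card_filter_add_card_filter_not _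
    have hJ₁c : J₁.card ≤ D'.card := by
      refine card_le_card_of_injOn w ?_ ?_
      · intro p hp
        have hp' := mem_filter.mp (mem_coe.mp hp)
        have hpD : w p ∈ D := not_not.mp hp'.2
        exact mem_coe.mpr (mem_sdiff.mpr ⟨hpD, fun h => (hw p hp'.1).2 (mem_sdiff.mp h).1⟩)
      · intro p hp p' hp' hpp
        exact hwi p (mem_filter.mp (mem_coe.mp hp)).1 p' (mem_filter.mp (mem_coe.mp hp')).1 hpp
    have halive : ∀ p ∈ J', p ∉ F := by
      intro p hp hpF
      obtain ⟨hpJ, hpD⟩ := mem_filter.mp hp
      have hpQ : p ∉ Q := fun h => disjoint_left.mp hJQ hpJ h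
      have hle : (N p \ D).card ≤ k := by
        have := (mem_filter.mp hpF).2
        rwa [if_neg hpQ] at this
      obtain ⟨hwN, hwA⟩ := hw p hpJ
      rcases hroots p hpJ with hRN | hRN
      · have hins : insert (w p) R ⊆ N p \ D := by
          intro u hu
          rcases mem_insert.mp hu with rfl | hu
          · exact mem_sdiff.mpr ⟨hwN, hpD⟩
          · exact mem_sdiff.mpr ⟨hRN hu, fun h => disjoint_left.mp hD h hu⟩
        have h2 := card_le_card hins
        rw [card_insert_of_notMem (fun h => hwA (hRA h))] at h2
        omega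
      · have hdis : Disjoint (R ∩ N p) ((N p \ A) \ D') := by
          rw [disjoint_left]
          intro u hu hu'
          exact (mem_sdiff.mp (mem_sdiff.mp hu').1).2 (hRA (mem_inter.mp hu).1)
        have hsubs : (R ∩ N p) ∪ ((N p \ A) \ D') ⊆ N p \ D := by
          intro u hu
          rcases mem_union.mp hu with hu | hu
          · obtain ⟨hu1, hu2⟩ := mem_inter.mp hu
            exact mem_sdiff.mpr ⟨hu2, fun h => disjoint_left.mp hD h hu1⟩
          · obtain ⟨hu1, hu2⟩ := mem_sdiff.mp hu
            obtain ⟨hu3, hu4⟩ := mem_sdiff.mp hu1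
            refine mem_sdiff.mpr ⟨hu3, fun h => hu2 (mem_sdiff.mpr ⟨h, fun h' => ?_⟩)⟩
            exact hu4 (mem_sdiff.mp h').1
        have h2 := card_le_card hsubs
        rw [card_union_of_disjoint hdis] at h2
        have h3 : (R ∩ N p).card + (R \ N p).card = R.card := card_inter_add_card_sdiff R (N p)
        have h4 : (A ∩ N p).card + (A \ N p).card = A.card := card_inter_add_card_sdiff A (N p)
        have h5 : (N p ∩ A).card + (N p \ A).card = (N p).card :=
          card_inter_add_card_sdiff (N p) A
        rw [inter_comm] at h5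
        have h6 := le_card_sdiff D' (N p \ A)
        have h7 := h1 p
        omega
    have hFsub : F ⊆ univ \ J' := by
      intro p hp
      exact mem_sdiff.mpr ⟨mem_univ _, fun h => halive p h hp⟩
    have h8 := card_le_card hFsub
    rw [card_sdiff_of_subset (subset_univ _), card_univ, hk] at h8
    omega
  · -- the generic players are alive
    obtain ⟨u, huAR, huD⟩ := not_subset.mp hsub
    obtain ⟨huA, huR⟩ := mem_sdiff.mp huAR
    have hAD : k < (A \ D).card := by
      have hins : insert u R ⊆ A \ D := by
        intro x hx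
        rcases mem_insert.mp hx with rfl | hx
        · exact mem_sdiff.mpr ⟨huA, huD⟩
        · exact mem_sdiff.mpr ⟨hRA hx, fun h => disjoint_left.mp hD h hx⟩
      have h2 := card_le_card hins
      rw [card_insert_of_notMem huR] at h2
      omega
    have hFQ : F ⊆ univ \ Q := by
      intro p hp
      refine mem_sdiff.mpr ⟨mem_univ _, fun h => ?_⟩
      have := (mem_filter.mp hp).2
      rw [if_pos h] at this
      omega
    have h8 := card_le_card hFQ
    rw [card_sdiff_of_subset (subset_univ _), card_univ, hk] at h8
    rcases F.eq_empty_or_nonempty with h0 | ⟨p, hp⟩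
    · rw [h0]
      simp
    · have hpQ : p ∉ Q := (mem_sdiff.mp (hFQ hp)).2
      have hle : (N p \ D).card ≤ k := by
        have := (mem_filter.mp hp).2
        rwa [if_neg hpQ] at this
      have h9 := le_card_sdiff D (N p)
      have h10 := h1 p
      omega

end Pool.Agent.Helper76.DC
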