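import Pool.Agent.Helper76.DC.Setup

/-!
# MP_6bc104, square root theorem, module M6: pairs of ports are shared out by Hall's theorem
-/

set_option autoImplicit false

namespace Pool.Agent.Helper76.DC

open Finset

theorem hall_pairs {W P : Type} [DecidableEq W] [Fintype P] [DecidableEq P]
    (N : P → Finset W) (A : Finset W) (β τ : ℕ) (Q : Finset P)
    (hβ : ∀ u ∈ A, mis N u ≤ β) (hτ : ∀ p ∈ Q, (A \ N p).card ≤ τ)
    (hQ : 2 * β + τ ≤ Q.card) (a a' : P → W)
    (haA : ∀ p ∈ Q, a p ∈ A ∧ a' p ∈ A ∧ a p ≠ a' p)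
    (hdis : ∀ p ∈ Q, ∀ p' ∈ Q, p ≠ p' → a p ≠ a p' ∧ a p ≠ a' p' ∧ a' p ≠ a' p') :
    ∃ σ : P → P, (∀ p ∈ Q, σ p ∈ Q) ∧ (∀ p ∈ Q, ∀ p' ∈ Q, σ p = σ p' → p = p') ∧
      ∀ p ∈ Q, a p ∈ N (σ p) ∧ a' p ∈ N (σ p) := by
  classical
  let t : {i // i ∈ Q} → Finset P := fun i => Q.filter fun x => a i ∈ N x ∧ a' i ∈ N x
  have ht : ∀ i x, x ∈ t i ↔ x ∈ Q ∧ a i ∈ N x ∧ a' i ∈ N x := fun i x => by
    simp only [t, mem_filter]
  have hall : ∀ s : Finset {i // i ∈ Q}, s.card ≤ (s.biUnion t).card := by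
    intro s
    by_contra hcon
    rw [not_le] at hcon
    have hsub : s.biUnion t ⊆ Q := by
      intro x hx
      rw [mem_biUnion] at hx
      obtain ⟨i, -, hi⟩ := hx
      exact ((ht i x).1 hi).1
    have hsQ : s.card ≤ Q.card := by
      have h1 := Finset.card_le_univ s
      rwa [Fintype.card_coe] at h1
    set Z : Finset P := Q \ s.biUnion t with hZ
    have hZc : Z.card + (s.biUnion t).card = Q.card := by
      rw [hZ]
      exact card_sdiff_add_card_eq_card hsub
    have hZne : 0 < Z.card := by omega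
    have hsne : 0 < s.card := by omega
    have hmiss : ∀ i ∈ s, ∀ x ∈ Z, ¬ (a i ∈ N x ∧ a' i ∈ N x) := by
      intro i hi x hx h
      rw [hZ, mem_sdiff] at hx
      exact hx.2 (mem_biUnion.2 ⟨i, hi, (ht i x).2 ⟨hx.1, h⟩⟩)
    -- one player of `Z`
    obtain ⟨x, hx⟩ := card_pos.1 hZne
    have hxQ : x ∈ Q := by
      rw [hZ, mem_sdiff] at hx
      exact hx.1
    have hs : s.card ≤ τ := by
      refine le_trans ?_ (hτ x hxQ)
      refine card_le_card_of_injOn
        (fun i : {i // i ∈ Q} => if a i ∈ N x then a' i else a i) ?_ ?_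
      · intro i hi
        have hi' : i ∈ s := hi
        have h1 := hmiss i hi' x hx
        have h2 := haA i i.2
        show (if a i ∈ N x then a' i else a i) ∈ ((A \ N x : Finset W) : Set W)
        rw [mem_coe, mem_sdiff]
        split_ifs with h
        · exact ⟨h2.2.1, fun h3 => h1 ⟨h, h3⟩⟩
        · exact ⟨h2.1, h⟩
      · intro i hi i' hi' h
        by_contra hne
        have hne' : (i : P) ≠ (i' : P) := fun e => hne (Subtype.ext e)
        have h1 := hdis i i.2 i' i'.2 hne'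
        have h2 := hdis i' i'.2 i i.2 hne'.symm
        have h3 : (if a i ∈ N x then a' i else a i) = (if a i' ∈ N x then a' i' else a i') := h
        split_ifs at h3
        · exact h1.2.2 h3
        · exact h2.2.1 h3.symm
        · exact h1.2.1 h3
        · exact h1.1 h3
    -- one pair of `s`
    obtain ⟨i, hi⟩ := card_pos.1 hsne
    have hZ2 : Z.card ≤ 2 * β := by
      have h1 : Z ⊆ (univ.filter fun p => a i ∉ N p) ∪ (univ.filter fun p => a' i ∉ N p) := by
        intro y hy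
        rw [mem_union, mem_filter, mem_filter]
        have h2 := hmiss i hi y hy
        by_cases h3 : a i ∈ N y
        · exact Or.inr ⟨mem_univ _, fun h4 => h2 ⟨h3, h4⟩⟩
        · exact Or.inl ⟨mem_univ _, h3⟩
      have h2 := card_le_card h1
      have h3 := card_union_le (univ.filter fun p => a i ∉ N p) (univ.filter fun p => a' i ∉ N p)
      have h4 := haA i i.2
      have h5 : (univ.filter fun p => a i ∉ N p).card ≤ β := hβ _ h4.1
      have h6 : (univ.filter fun p => a' i ∉ N p).card ≤ β := hβ _ h4.2.1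
      omega
    omega
  obtain ⟨f, hf, hft⟩ := (Finset.all_card_le_biUnion_card_iff_exists_injective t).1 hall
  refine ⟨fun p => if h : p ∈ Q then f ⟨p, h⟩ else p, ?_, ?_, ?_⟩
  · intro p hp
    show (if h : p ∈ Q then f ⟨p, h⟩ else p) ∈ Q
    rw [dif_pos hp]
    exact ((ht _ _).1 (hft ⟨p, hp⟩)).1
  · intro p hp p' hp' h
    have h1 : (if h : p ∈ Q then f ⟨p, h⟩ else p) = (if h : p' ∈ Q then f ⟨p', h⟩ else p') := h
    rw [dif_pos hp, dif_pos hp'] at h1
    exact congrArg Subtype.val (hf h1)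
  · intro p hp
    show a p ∈ N (if h : p ∈ Q then f ⟨p, h⟩ else p) ∧ a' p ∈ N (if h : p ∈ Q then f ⟨p, h⟩ else p)
    rw [dif_pos hp]
    exact ((ht _ _).1 (hft ⟨p, hp⟩)).2

end Pool.Agent.Helper76.DC
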