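import Pool.Agent.Helper76.DC.M1
import Pool.Agent.Helper76.DC.M2
import Pool.Agent.Helper76.DC.M3
import Pool.Agent.Helper76.DC.M4
import Pool.Agent.Helper76.DC.M5
import Pool.Agent.Helper76.DC.M6

set_option autoImplicit false

/-!
# M7: popular ports, roots and generic players

From the modules M1 .. M6 we get a root set and replacement sets for the players such that the
criterion holds and every system of disjoint pairs can be given back to the original players.
-/

namespace Pool.Agent.Helper76.DC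

open Finset

private theorem sum_sdiff_eq {W P : Type} [DecidableEq W] [Fintype P] (N : P → Finset W)
    (A : Finset W) : (∑ p : P, (A \ N p).card) = ∑ u ∈ A, mis N u := by
  have h1 : ∀ p : P, (A \ N p).card = ∑ u ∈ A, if u ∉ N p then 1 else 0 := by
    intro p
    rw [← Finset.card_filter]
    congr 1
    ext u
    simp [Finset.mem_sdiff]
  have h2 : ∀ u : W, mis N u = ∑ p : P, if u ∉ N p then 1 else 0 := by
    intro u
    unfold mis
    rw [Finset.card_filter]
  simp_rw [h1, h2]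
  exact Finset.sum_comm

/-- a finite set all of whose members have value more than `β` -/
private theorem card_mul_le {T : Type} (S : Finset T) (f : T → ℕ) (β : ℕ)
    (h : ∀ x ∈ S, β < f x) : S.card * (β + 1) ≤ ∑ x ∈ S, f x := by
  have := Finset.card_nsmul_le_sum S f (β + 1) (fun x hx => h x hx)
  simpa [smul_eq_mul] using this

private theorem num52 (t k : ℕ) (h : 5 * t ^ 2 + 21 * t ≤ k) : 52 * t ≤ k + 48 := by
  rcases Nat.lt_or_ge t 4 with h2 | h2
  · interval_cases t <;> omega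
  · obtain ⟨r, rfl⟩ : ∃ r, t = r + 4 := ⟨t - 4, by omega⟩
    have e : 5 * (r + 4) ^ 2 = 5 * (r * r) + 40 * r + 80 := by ring
    omega

private theorem num4 (t k : ℕ) (ht : 1 ≤ t) (h : 5 * t ^ 2 + 21 * t ≤ k) :
    4 * (t - 1) ≤ k := by
  obtain ⟨s, rfl⟩ : ∃ s, t = s + 1 := ⟨t - 1, by omega⟩
  have e : 5 * (s + 1) ^ 2 = 5 * (s * s) + 10 * s + 5 := by ring
  omega

private theorem num5 (t k : ℕ) (ht : 1 ≤ t) (h : 5 * t ^ 2 + 21 * t ≤ k) :
    5 * t - 4 ≤ k := by
  obtain ⟨s, rfl⟩ : ∃ s, t = s + 1 := ⟨t - 1, by omega⟩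
  have e : 5 * (s + 1) ^ 2 = 5 * (s * s) + 10 * s + 5 := by ring
  omega

private theorem num55 (t k : ℕ) (ht : 1 ≤ t) (h : 5 * t ^ 2 + 21 * t ≤ k) :
    (5 * t - 4) * (t + 1) ≤ k := by
  obtain ⟨s, rfl⟩ : ∃ s, t = s + 1 := ⟨t - 1, by omega⟩
  have e : 5 * (s + 1) ^ 2 = 5 * (s * s) + 10 * s + 5 := by ring
  have e2 : 5 * (s + 1) - 4 = 5 * s + 1 := by omega
  have e3 : (5 * s + 1) * (s + 1 + 1) = 5 * (s * s) + 11 * s + 2 := by ring
  rw [e2, e3]
  omega

private theorem num1 (t k : ℕ) (hk : 1 ≤ k) (h : 5 * t ^ 2 + 21 * t ≤ k) : t < k := by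
  rcases Nat.eq_zero_or_pos t with h0 | h0
  · omega
  · omega

/-- M7: the combinatorial statement -/
theorem comb_main {W P : Type} [Fintype W] [DecidableEq W] [Fintype P] [DecidableEq P]
    (N : P → Finset W) (k t : ℕ) (hk : Fintype.card P = k) (hk1 : 1 ≤ k) 
    (htk : 5 * t ^ 2 + 21 * t ≤ k)
    (h1 : ∀ p, 2 * k ≤ (N p).card + t)
    (h2 : ∀ Y : Finset P, Y.Nonempty → k + Y.card ≤ (Y.biUnion N).card) :
    ∃ (R : Finset W) (N' : P → Finset W), R.card = k ∧ Crit N' k R ∧
      ∀ a a' : P → W, (∀ p, a p ∈ N' p ∧ a' p ∈ N' p ∧ a p ≠ a' p) →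
        (∀ p p', p ≠ p' → a p ≠ a p' ∧ a p ≠ a' p' ∧ a' p ≠ a' p') →
        ∃ σ : P → P, Function.Injective σ ∧ ∀ p, a p ∈ N (σ p) ∧ a' p ∈ N (σ p) := by
  classical
  have hcardW : k ≤ Fintype.card W := by
    have hne : (univ : Finset P).Nonempty := by
      rw [← Finset.card_pos, Finset.card_univ]; omega
    have h := h2 univ hne
    have h' : ((univ : Finset P).biUnion N).card ≤ Fintype.card W := Finset.card_le_univ _
    omega
  obtain ⟨R0, hR0, hpop⟩ := exists_popular N k hcardW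
  by_cases hC : Crit N k R0
  · refine ⟨R0, N, hR0, hC, ?_⟩
    intro a a' ha _
    exact ⟨id, Function.injective_id, fun p => ⟨(ha p).1, (ha p).2.1⟩⟩
  have htk' : t < k := num1 t k hk1 htk
  unfold Crit at hC
  push Not at hC
  obtain ⟨D0, hD0, hbad⟩ := hC
  obtain ⟨hdk, hkd, ht1, hsumD, hmisR⟩ := bad_bounds N k t hk htk' h1 R0 D0 hpop hD0 hbad
  set β := k / 4 with hβ
  have hk4 : k < 4 * (β + 1) := by omega
  have ht14 : 4 * (t - 1) ≤ k := num4 t k ht1 htk
  have ht4 : t - 1 ≤ β := by omega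
  set B0 := D0.filter (fun u => β < mis N u) with hB0
  have hB0sub : B0 ⊆ D0 := Finset.filter_subset _ _
  have hB0card : B0.card ≤ 4 * (t - 1) := by
    have hA1 : B0.card * (β + 1) ≤ ∑ u ∈ B0, mis N u :=
      card_mul_le B0 (fun u => mis N u) β (fun x hx => (Finset.mem_filter.1 hx).2)
    have hA2 : ∑ u ∈ B0, mis N u ≤ ∑ u ∈ D0, mis N u :=
      Finset.sum_le_sum_of_subset hB0sub
    have hA3 : B0.card * (β + 1) ≤ (4 * (t - 1)) * (β + 1) := by
      calc B0.card * (β + 1) ≤ k * (t - 1) := by omega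
        _ ≤ (4 * (β + 1)) * (t - 1) := Nat.mul_le_mul_right _ hk4.le
        _ = (4 * (t - 1)) * (β + 1) := by ring
    exact Nat.le_of_mul_le_mul_right hA3 (Nat.succ_pos β)
  have hdRD : Disjoint R0 D0 := hD0.symm
  set A := (R0 ∪ D0) \ B0 with hAdef
  have hB0P : B0 ⊆ R0 ∪ D0 := hB0sub.trans Finset.subset_union_right
  have hP0card : (R0 ∪ D0).card = k + D0.card := by
    rw [Finset.card_union_of_disjoint hdRD, hR0]
  have hAcard : A.card = k + D0.card - B0.card := by
    rw [hAdef, Finset.card_sdiff_of_subset hB0P, hP0card]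
  have hBD : B0.card ≤ D0.card := Finset.card_le_card hB0sub
  obtain ⟨q, hq⟩ : ∃ q, q = k - D0.card + B0.card := ⟨_, rfl⟩
  have hAq : A.card + q = 2 * k := by omega
  have hqt0 : q ≤ 5 * t - 4 := by omega
  have hqle : q ≤ k := hqt0.trans (num5 t k ht1 htk)
  have hqt : q * (t + 1) ≤ k := (Nat.mul_le_mul_right _ hqt0).trans (num55 t k ht1 htk)
  have hmisA : ∀ u ∈ A, mis N u ≤ β := by
    intro u hu
    rw [hAdef, Finset.mem_sdiff, Finset.mem_union] at hu
    rcases hu.1 with h | h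
    · exact (hmisR u h).trans ht4
    · by_contra hlt
      exact hu.2 (Finset.mem_filter.2 ⟨h, not_le.1 hlt⟩)
  have hsumR : ∑ u ∈ R0, mis N u ≤ k * (t - 1) := by
    have := Finset.sum_le_card_nsmul R0 (fun u => mis N u) (t - 1) (fun r hr => hmisR r hr)
    rw [hR0] at this
    simpa [smul_eq_mul] using this
  have hsumA : ∑ p : P, (A \ N p).card ≤ 2 * k * (t - 1) := by
    rw [sum_sdiff_eq]
    have hA1 : ∑ u ∈ A, mis N u ≤ ∑ u ∈ R0 ∪ D0, mis N u :=
      Finset.sum_le_sum_of_subset Finset.sdiff_subset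
    rw [Finset.sum_union hdRD] at hA1
    have : 2 * k * (t - 1) = k * (t - 1) + k * (t - 1) := by ring
    omega
  set Bp := (univ : Finset P).filter (fun p => β < (A \ N p).card) with hBp
  have hBpcard : Bp.card ≤ 8 * (t - 1) := by
    have hA1 : Bp.card * (β + 1) ≤ ∑ p ∈ Bp, (A \ N p).card :=
      card_mul_le Bp (fun p => (A \ N p).card) β (fun x hx => (Finset.mem_filter.1 hx).2)
    have hA2 : ∑ p ∈ Bp, (A \ N p).card ≤ ∑ p : P, (A \ N p).card :=
      Finset.sum_le_sum_of_subset (Finset.subset_univ _)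
    have hA3 : Bp.card * (β + 1) ≤ (8 * (t - 1)) * (β + 1) := by
      calc Bp.card * (β + 1) ≤ 2 * k * (t - 1) := by omega
        _ ≤ 2 * (4 * (β + 1)) * (t - 1) :=
          Nat.mul_le_mul_right _ (Nat.mul_le_mul_left _ hk4.le)
        _ = (8 * (t - 1)) * (β + 1) := by ring
    exact Nat.le_of_mul_le_mul_right hA3 (Nat.succ_pos β)
  obtain ⟨J, w, hJ, hw, hwi⟩ := exists_special N k hk h2 A q hAq hqle
  obtain ⟨R, hRA, hR, hroots⟩ := exists_roots N k t q A hAq J hJ hqt
  set Q := (univ \ Bp) \ J with hQdef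
  have hJQ : Disjoint J Q := Finset.disjoint_sdiff
  have hQcard : k ≤ Q.card + 8 * (t - 1) + q := by
    have e1 : (univ \ Bp : Finset P).card = k - Bp.card := by
      rw [Finset.card_sdiff_of_subset (Finset.subset_univ _), Finset.card_univ, hk]
    have e2 : (univ \ Bp : Finset P).card - J.card ≤ Q.card := by
      rw [hQdef]; exact Finset.le_card_sdiff J _
    omega
  have hk52 : 52 * t ≤ k + 48 := num52 t k htk
  have hQ3 : 2 * β + β ≤ Q.card := by omega
  have hQt : t ≤ Q.card := by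
    have : t ≤ 3 * β := by
      rcases Nat.lt_or_ge t 2 with h | h
      · have : t = 1 := by omega
        subst this
        omega
      · omega
    omega
  refine ⟨R, fun p => if p ∈ Q then A else N p, hR,
    crit_generic N k t q hk h1 A R hAq hRA hR J Q hJ hJQ hQt w hw hwi hroots, ?_⟩
  intro a a' ha hdis
  have hτ : ∀ p ∈ Q, (A \ N p).card ≤ β := by
    intro p hp
    rw [hQdef, Finset.mem_sdiff, Finset.mem_sdiff] at hp
    by_contra hlt
    exact hp.1.2 (Finset.mem_filter.2 ⟨Finset.mem_univ _, not_le.1 hlt⟩)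
  have haA : ∀ p ∈ Q, a p ∈ A ∧ a' p ∈ A ∧ a p ≠ a' p := by
    intro p hp
    have h := ha p
    simp only [hp, if_true] at h
    exact h
  obtain ⟨σ, hσ1, hσ2, hσ3⟩ := hall_pairs N A β β Q hmisA hτ hQ3 a a' haA
    (fun p _ p' _ hne => hdis p p' hne)
  refine ⟨fun p => if p ∈ Q then σ p else p, ?_, ?_⟩
  · intro p p' hpp
    by_cases hp : p ∈ Q <;> by_cases hp' : p' ∈ Q
    · simp only [hp, hp', if_true] at hpp
      exact hσ2 p hp p' hp' hpp
    · simp only [hp, hp', if_true, if_false] at hpp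
      exact absurd (hpp ▸ hσ1 p hp) hp'
    · simp only [hp, hp', if_true, if_false] at hpp
      exact absurd (hpp ▸ hσ1 p' hp') hp
    · simp only [hp, hp', if_false] at hpp
      exact hpp
  · intro p
    by_cases hp : p ∈ Q
    · simp only [hp, if_true]
      exact hσ3 p hp
    · have h := ha p
      simp only [hp, if_false] at h
      simp only [hp, if_false]
      exact ⟨h.1, h.2.1⟩

end Pool.Agent.Helper76.DC
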