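import Pool.Agent.Helper76.DC.Setup
import Pool.Agent.Helper46.DC.Criterion

set_option autoImplicit false

namespace Pool.Agent.Helper76.DC

open Finset

open Pool.Agent.DC (Expand)

/-- M8 -/
theorem parts_graph {V : Type} [Fintype V] [DecidableEq V] (G : SimpleGraph V)
    (X R : Finset V) (hXR : Disjoint X R) (hRX : R.card = X.card) (hX : X.Nonempty)
    (hbig : ∃ v, v ∉ X ∧ v ∉ R)
    (hconn : ∀ Z : Finset V, Disjoint Z X → Z.card < X.card →
      (G.induce {v | v ∉ X ∧ v ∉ Z}).Connected)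
    (N : {x // x ∈ X} → Finset V) (hN : ∀ p, Disjoint (N p) X)
    (hS : ∀ D : Finset V, Disjoint D X → Disjoint D R →
      (univ.filter fun p => (N p \ D).card ≤ X.card).card ≤ D.card) :
    ∃ S : {x // x ∈ X} → Set V, (∀ p q, p ≠ q → Disjoint (S p) (S q)) ∧
      (∀ p, ∀ v ∈ S p, v ∉ X) ∧
      (∀ p, ∀ v ∈ S p, ∀ v' ∈ S p,
        Relation.ReflTransGen (fun x y => x ∈ S p ∧ y ∈ S p ∧ G.Adj x y) v v') ∧
      ∀ p, ∃ a b, a ≠ b ∧ a ∈ N p ∧ b ∈ N p ∧ a ∈ S p ∧ b ∈ S p := by
  classical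
  obtain ⟨v₀, hv₀⟩ := hbig
  have : Nonempty {v // v ∉ X ∧ v ∉ R} := ⟨⟨v₀, hv₀⟩⟩
  have hRne : R.Nonempty := by
    rw [← Finset.card_pos, hRX]
    exact hX.card_pos
  obtain ⟨r₀, hr₀⟩ := hRne
  have : Nonempty {v // v ∈ R} := ⟨⟨r₀, hr₀⟩⟩
  let φ : {v // v ∉ X ∧ v ∉ R} ⊕ {v // v ∈ R} → V := Sum.elim (fun u => u.1) (fun j => j.1)
  have hφi : Function.Injective φ := by
    rintro (u | j) (u' | j') h
    · exact congrArg Sum.inl (Subtype.ext h)
    · exact absurd (show u.1 ∈ R by rw [show u.1 = j'.1 from h]; exact j'.2) u.2.2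
    · exact absurd (show u'.1 ∈ R by rw [← show j.1 = u'.1 from h]; exact j.2) u'.2.2
    · exact congrArg Sum.inr (Subtype.ext h)
  have hφX : ∀ x, φ x ∉ X := by
    rintro (u | j)
    · exact u.2.1
    · exact fun h => (Finset.disjoint_left.1 hXR h) j.2
  have hφs : ∀ v, v ∉ X → ∃ x, φ x = v := by
    intro v hv
    by_cases hR : v ∈ R
    · exact ⟨Sum.inr ⟨v, hR⟩, rfl⟩
    · exact ⟨Sum.inl ⟨v, hv, hR⟩, rfl⟩
  have hcard : Fintype.card {v // v ∈ X} = Fintype.card {v // v ∈ R} := by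
    rw [Fintype.card_coe, Fintype.card_coe, hRX]
  let adj : {v // v ∉ X ∧ v ∉ R} → {v // v ∉ X ∧ v ∉ R} ⊕ {v // v ∈ R} → Prop :=
    fun u x => G.Adj u.1 (φ x)
  have hexp : ∀ J : Finset {v // v ∈ R}, J.Nonempty → Expand adj J := by
    intro J hJ S
    set Y : Finset {v // v ∉ X ∧ v ∉ R} :=
      univ.filter (fun y => y ∉ S ∧ ∃ x ∈ S.disjSum J, adj y x) with hY
    by_cases hc : J.card ≤ Y.card
    · exact Or.inl ⟨Y, hc, fun y hy => (Finset.mem_filter.1 hy).2⟩
    · right
      intro y₀ hy₀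
      by_contra hno
      set Z : Finset V := Y.image (fun u => u.1) ∪ (R \ J.image (fun j => j.1)) with hZ
      have hZX : Disjoint Z X := by
        rw [Finset.disjoint_left]
        intro v hv hvX
        rw [hZ, Finset.mem_union] at hv
        rcases hv with hv | hv
        · obtain ⟨u, _, rfl⟩ := Finset.mem_image.1 hv
          exact u.2.1 hvX
        · exact (Finset.disjoint_left.1 hXR hvX) (Finset.mem_sdiff.1 hv).1
      have hZc : Z.card < X.card := by
        have h1 : Z.card ≤ Y.card + (R.card - J.card) := by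
          refine (Finset.card_union_le _ _).trans (add_le_add Finset.card_image_le ?_)
          rw [Finset.card_sdiff_of_subset, Finset.card_image_of_injective _
            Subtype.coe_injective]
          intro v hv
          obtain ⟨j, _, rfl⟩ := Finset.mem_image.1 hv
          exact j.2
        have h2 : J.card ≤ R.card := by
          rw [← Fintype.card_coe R]
          exact Finset.card_le_univ J
        omega
      have hC := hconn Z hZX hZc
      obtain ⟨j, hj⟩ := hJ
      have hjm : j.1 ∉ X ∧ j.1 ∉ Z := by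
        refine ⟨hφX (Sum.inr j), fun hz => ?_⟩
        rw [hZ, Finset.mem_union] at hz
        rcases hz with hz | hz
        · obtain ⟨u, _, hu⟩ := Finset.mem_image.1 hz
          exact u.2.2 (hu ▸ j.2)
        · exact (Finset.mem_sdiff.1 hz).2 (Finset.mem_image.2 ⟨j, hj, rfl⟩)
      have hym : y₀.1 ∉ X ∧ y₀.1 ∉ Z := by
        refine ⟨y₀.2.1, fun hz => ?_⟩
        rw [hZ, Finset.mem_union] at hz
        rcases hz with hz | hz
        · obtain ⟨u, hu1, hu⟩ := Finset.mem_image.1 hz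
          have hu' : u = y₀ := Subtype.ext hu
          rw [hu'] at hu1
          exact hno (Finset.mem_filter.1 hu1).2.2
        · exact y₀.2.2 (Finset.mem_sdiff.1 hz).1
      -- the closed set
      have hcl : ∀ v w : V, (∃ x ∈ S.disjSum J, φ x = v) → G.Adj v w → w ∉ X → w ∉ Z →
          ∃ x ∈ S.disjSum J, φ x = w := by
        rintro v w ⟨x, hx, rfl⟩ hvw hwX hwZ
        obtain ⟨x', rfl⟩ := hφs w hwX
        rcases x' with u | j'
        · by_cases huS : u ∈ S
          · exact ⟨Sum.inl u, Finset.inl_mem_disjSum.2 huS, rfl⟩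
          · exfalso
            apply hwZ
            rw [hZ, Finset.mem_union]
            left
            refine Finset.mem_image.2 ⟨u, ?_, rfl⟩
            rw [hY, Finset.mem_filter]
            exact ⟨Finset.mem_univ _, huS, x, hx, hvw.symm⟩
        · by_cases hj' : j' ∈ J
          · exact ⟨Sum.inr j', Finset.inr_mem_disjSum.2 hj', rfl⟩
          · exfalso
            apply hwZ
            rw [hZ, Finset.mem_union]
            right
            refine Finset.mem_sdiff.2 ⟨j'.2, fun h' => ?_⟩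
            obtain ⟨j'', hj'', h3⟩ := Finset.mem_image.1 h'
            have h4 : j'' = j' := Subtype.ext h3
            exact hj' (h4 ▸ hj'')
      obtain ⟨wk⟩ := hC.preconnected ⟨j.1, hjm⟩ ⟨y₀.1, hym⟩
      have hwalk : ∀ (a b : {v // v ∈ {v | v ∉ X ∧ v ∉ Z}})
          (_ : (G.induce {v | v ∉ X ∧ v ∉ Z}).Walk a b),
          (∃ x ∈ S.disjSum J, φ x = a.1) → ∃ x ∈ S.disjSum J, φ x = b.1 := by
        intro a b w
        induction w with
        | nil => exact id
        | @cons a c b h' _ ih =>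
          intro hx
          exact ih (hcl _ _ hx h' c.2.1 c.2.2)
      obtain ⟨x, hx, hxe⟩ := hwalk _ _ wk ⟨Sum.inr j, Finset.inr_mem_disjSum.2 hj, rfl⟩
      have hx' : x = Sum.inl y₀ := hφi hxe
      rw [hx'] at hx
      exact hy₀ (Finset.inl_mem_disjSum.1 hx)
  let N' : {v // v ∈ X} → Finset ({v // v ∉ X ∧ v ∉ R} ⊕ {v // v ∈ R}) :=
    fun p => univ.filter fun x => φ x ∈ N p
  have hS' : ∀ D : Finset {v // v ∉ X ∧ v ∉ R},
      (univ.filter fun p => (N' p \ D.map ⟨Sum.inl, Sum.inl_injective⟩).card ≤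
        Fintype.card {v // v ∈ R}).card ≤ D.card := by
    intro D
    have h1 := hS (D.image fun u => u.1) (by
      rw [Finset.disjoint_left]
      intro v hv
      obtain ⟨u, _, rfl⟩ := Finset.mem_image.1 hv
      exact u.2.1) (by
      rw [Finset.disjoint_left]
      intro v hv
      obtain ⟨u, _, rfl⟩ := Finset.mem_image.1 hv
      exact u.2.2)
    rw [Finset.card_image_of_injective _ Subtype.coe_injective] at h1
    refine le_trans (le_of_eq ?_) h1
    congr 1
    refine Finset.filter_congr fun p _ => ?_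
    have h2 : (N p \ D.image fun u => u.1) =
        (N' p \ D.map ⟨Sum.inl, Sum.inl_injective⟩).image φ := by
      ext v
      simp only [Finset.mem_sdiff, Finset.mem_filter, Finset.mem_univ, true_and,
        Finset.mem_image, Finset.mem_map, N']
      constructor
      · rintro ⟨h3, h5⟩
        obtain ⟨x, rfl⟩ := hφs v fun h => Finset.disjoint_left.1 (hN p) h3 h
        refine ⟨x, ⟨h3, ?_⟩, rfl⟩
        rintro ⟨u, hu, hux⟩
        exact h5 ⟨u, hu, by rw [← hux]; rfl⟩
      · rintro ⟨x, ⟨h3, h4⟩, rfl⟩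
        refine ⟨h3, ?_⟩
        rintro ⟨u, hu, hux⟩
        exact h4 ⟨u, hu, hφi hux⟩
    rw [h2, Finset.card_image_of_injective _ hφi, ← hRX, ← Fintype.card_coe R]
  obtain ⟨W, hWd, hWr, hWn⟩ := Pool.Agent.DC.exists_parts hcard adj hexp N' hS'
  refine ⟨fun p => φ '' W p, ?_, ?_, ?_, ?_⟩
  · intro p q hpq
    rw [Set.disjoint_left]
    rintro v ⟨x, hx, rfl⟩ ⟨y, hy, hyx⟩
    have := hφi hyx
    rw [this] at hy
    exact Set.disjoint_left.1 (hWd p q hpq) hx hy
  · rintro p v ⟨x, _, rfl⟩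
    exact hφX x
  · intro p
    obtain ⟨r, hr, hreach⟩ := hWr p
    have hl : ∀ y ∈ W p, Relation.ReflTransGen
        (fun u v => u ∈ φ '' W p ∧ v ∈ φ '' W p ∧ G.Adj u v) (φ y) (φ r) := by
      intro y hy
      refine Relation.ReflTransGen.lift φ ?_ y r (hreach y hy)
      rintro z z' ⟨h1, h2, u, rfl, h3⟩
      exact ⟨⟨_, h1, rfl⟩, ⟨_, h2, rfl⟩, h3⟩
    have hsym : Std.Symm (fun u v => u ∈ φ '' W p ∧ v ∈ φ '' W p ∧ G.Adj u v) :=
      ⟨fun u v h => ⟨h.2.1, h.1, h.2.2.symm⟩⟩
    rintro v ⟨a, ha, rfl⟩ v' ⟨b, hb, rfl⟩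
    exact (hl a ha).trans
      ((Relation.ReflTransGen.stdSymm (r := fun u v => u ∈ φ '' W p ∧
        v ∈ φ '' W p ∧ G.Adj u v)).symm _ _ (hl b hb))
  · intro p
    obtain ⟨a, b, hab, haN, hbN, haW, hbW⟩ := hWn p
    exact ⟨φ a, φ b, fun h => hab (hφi h), (Finset.mem_filter.1 haN).2,
      (Finset.mem_filter.1 hbN).2, ⟨a, haW, rfl⟩, ⟨b, hbW, rfl⟩⟩

end Pool.Agent.Helper76.DC
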