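import Pool.Agent.Helper76.DC.Setup
import Pool.Agent.Helper46.DC.Criterion

set_option autoImplicit false

/-!
# DC2-M9 (MP_6bc104_co): disjoint connected parts with two ports each give disjoint cycles
-/

namespace Pool.Agent.Helper76.DC

open Finset

theorem cycles_of_parts {V : Type} [Fintype V] [DecidableEq V] (G : SimpleGraph V)
    (X : Finset V) (S : {x // x ∈ X} → Set V) (hdis : ∀ p q, p ≠ q → Disjoint (S p) (S q))
    (hSX : ∀ p, ∀ v ∈ S p, v ∉ X)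
    (hconn : ∀ p, ∀ v ∈ S p, ∀ v' ∈ S p,
      Relation.ReflTransGen (fun x y => x ∈ S p ∧ y ∈ S p ∧ G.Adj x y) v v')
    (h : ∀ p, ∃ a b, a ≠ b ∧ a ∈ S p ∧ b ∈ S p ∧ G.Adj p.1 a ∧ G.Adj p.1 b) :
    Pool.Agent.DC.DisjCycles G X := by
  classical
  have hcyc : ∀ x : V, ∃ C : G.Walk x x, ∀ hx : x ∈ X, C.IsCycle ∧
      ∀ v ∈ C.support, v = x ∨ v ∈ S ⟨x, hx⟩ := by
    intro x
    by_cases hx : x ∈ X
    · obtain ⟨a, b, hab, haS, hbS, hxa, hxb⟩ := h ⟨x, hx⟩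
      obtain ⟨C, hC1, hC2⟩ := Pool.Agent.DC.exists_cycle G x a b (S ⟨x, hx⟩)
        (fun hxS => hSX ⟨x, hx⟩ x hxS hx) hab hxa hxb (hconn ⟨x, hx⟩ a haS b hbS) haS
      exact ⟨C, fun _ => ⟨hC1, hC2⟩⟩
    · exact ⟨SimpleGraph.Walk.nil, fun h => absurd h hx⟩
  choose C hC using hcyc
  refine ⟨C, fun x hx => (hC x hx).1, fun x hx v hv hvX => ?_, fun x hx y hy hxy v hv hv' => ?_⟩
  · rcases (hC x hx).2 v hv with h1 | h1
    · exact h1
    · exact absurd hvX (hSX _ v h1)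
  · rcases (hC x hx).2 v hv with h1 | h1
    · rcases (hC y hy).2 v hv' with h2 | h2
      · exact hxy (h1.symm.trans h2)
      · exact hSX _ v h2 (h1 ▸ hx)
    · rcases (hC y hy).2 v hv' with h2 | h2
      · exact hSX _ v h1 (h2 ▸ hy)
      · exact Set.disjoint_left.1
          (hdis ⟨x, hx⟩ ⟨y, hy⟩ fun h3 => hxy (congrArg Subtype.val h3)) h1 h2

end Pool.Agent.Helper76.DC
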