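import Pool.Agent.Helper76.DC.M7
import Pool.Agent.Helper76.DC.M8
import Pool.Agent.Helper76.DC.M9
import Pool.Agent.Helper46.DC.SpreadMain

set_option autoImplicit false

/-!
# Square root theorem: disjoint cycles through specified vertices, graph version
-/

namespace Pool.Agent.Helper76.DC

open Finset

open Pool.Agent.DC (KConn DisjCycles outN spread_sep)

/-- the neighbourhoods of a set of specified vertices are large -/
theorem nbhd_card {V : Type} [Fintype V] [DecidableEq V] (G : SimpleGraph V)
    [DecidableRel G.Adj] (k : ℕ) (hV : 3 * k ≤ Fintype.card V) (hG : KConn G (2 * k))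
    (X : Finset V) (hX : X.card = k) (Y : Finset V) (hYX : Y ⊆ X) (hY : Y.Nonempty) :
    k + Y.card ≤ (Y.biUnion fun x => outN G X x).card := by
  classical
  set B := Y.biUnion fun x => outN G X x with hB
  have hBX : Disjoint B X := by
    rw [disjoint_left]
    intro v hv hvX
    rw [hB, mem_biUnion] at hv
    obtain ⟨x, -, hx⟩ := hv
    unfold outN at hx
    exact (mem_filter.mp hx).2.2 hvX
  have hYk : Y.card ≤ k := hX ▸ card_le_card hYX
  by_cases hex : ∃ y, y ∉ X ∧ y ∉ B
  · obtain ⟨y, hyX, hyB⟩ := hex
    obtain ⟨x, hx⟩ := hY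
    have hsep := spread_sep hG Y (B ∪ (X \ Y)) x y hx ?_ (fun h => hyX (hYX h)) ?_ ?_
    · have h1 := card_union_le B (X \ Y)
      have h2 := card_sdiff_add_card_eq_card hYX
      omega
    · rw [mem_union, mem_sdiff]
      rintro (h | h)
      · exact disjoint_left.mp hBX h (hYX hx)
      · exact h.2 hx
    · rw [mem_union, mem_sdiff]
      rintro (h | h)
      · exact hyB h
      · exact hyX h.1
    · intro u hu v huv
      by_cases hvY : v ∈ Y
      · exact Or.inl hvY
      · right
        rw [mem_union, mem_sdiff]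
        by_cases hvX : v ∈ X
        · exact Or.inr ⟨hvX, hvY⟩
        · refine Or.inl ?_
          rw [hB, mem_biUnion]
          exact ⟨u, hu, mem_filter.mpr ⟨mem_univ _, huv, hvX⟩⟩
  · push Not at hex
    have h1 : (univ : Finset V) ⊆ X ∪ B := by
      intro v _
      rw [mem_union]
      by_cases hv : v ∈ X
      · exact Or.inl hv
      · exact Or.inr (hex v hv)
    have h2 := card_le_card h1
    have h3 := card_union_le X B
    rw [card_univ] at h2
    omega

/-- **Square root theorem.** -/
theorem sqrt_main {V : Type} [Fintype V] [DecidableEq V] (G : SimpleGraph V)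
    [DecidableRel G.Adj] (k t : ℕ) (hk : 1 ≤ k) (htk : 5 * t ^ 2 + 21 * t ≤ k)
    (hV : 3 * k ≤ Fintype.card V) (hG : KConn G (2 * k))
    (X : Finset V) (hX : X.card = k) (hout : ∀ x ∈ X, 2 * k ≤ (outN G X x).card + t) :
    DisjCycles G X := by
  classical
  have hXne : X.Nonempty := card_pos.1 (by omega)
  -- ports
  set W := {v // v ∉ X} with hW
  let P := {x // x ∈ X}
  let e : W ↪ V := ⟨Subtype.val, Subtype.val_injective⟩
  let N : P → Finset W := fun p => (univ : Finset W).filter fun w => w.1 ∈ outN G X p.1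
  have hNmap : ∀ p, (N p).map e = outN G X p.1 := by
    intro p
    ext v
    simp only [N, mem_map, mem_filter, mem_univ, true_and]
    constructor
    · rintro ⟨w, hw, rfl⟩
      exact hw
    · intro hv
      have hvX : v ∉ X := (mem_filter.mp hv).2.2
      exact ⟨⟨v, hvX⟩, hv, rfl⟩
  have hNcard : ∀ p, (N p).card = (outN G X p.1).card := fun p => by rw [← hNmap p, card_map]
  have hP : Fintype.card P = k := by rw [Fintype.card_coe, hX]
  obtain ⟨R, N', hRk, hcrit, hre⟩ := comb_main N k t hP hk htk
    (fun p => by rw [hNcard]; exact hout p.1 p.2) (by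
      intro Y hY
      have h1 := nbhd_card G k hV hG X hX (Y.map ⟨Subtype.val, Subtype.val_injective⟩)
        (fun v hv => by
          obtain ⟨p, -, rfl⟩ := mem_map.mp hv
          exact p.2) (by simpa using hY)
      rw [card_map] at h1
      refine h1.trans (le_of_eq ?_)
      rw [← card_map e]
      congr 1
      ext v
      simp only [mem_biUnion, mem_map, Function.Embedding.coeFn_mk]
      constructor
      · rintro ⟨x, ⟨p, hp, rfl⟩, hv⟩
        have hv' : v ∈ (N p).map e := by rw [hNmap]; exact hv
        obtain ⟨w, hw, rfl⟩ := mem_map.mp hv'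
        exact ⟨w, ⟨p, hp, hw⟩, rfl⟩
      · rintro ⟨w, ⟨p, hp, hw⟩, rfl⟩
        exact ⟨p.1, ⟨p, hp, rfl⟩, by rw [← hNmap p]; exact mem_map_of_mem e hw⟩)
  have hmapX : ∀ S : Finset W, Disjoint (S.map e) X := by
    intro S
    rw [disjoint_left]
    intro v hv
    obtain ⟨w, -, rfl⟩ := mem_map.mp hv
    exact w.2
  have hbig : ∃ v, v ∉ X ∧ v ∉ R.map e := by
    by_contra hcon
    push Not at hcon
    have h1 : (univ : Finset V) ⊆ X ∪ R.map e := by
      intro v _
      rw [mem_union]
      by_cases hv : v ∈ X
      · exact Or.inl hv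
      · exact Or.inr (hcon v hv)
    have h2 := card_le_card h1
    have h3 := card_union_le X (R.map e)
    rw [card_univ] at h2
    rw [card_map] at h3
    omega
  obtain ⟨S, hdis, hSX, hconn, htwo⟩ := parts_graph G X (R.map e) (hmapX R).symm
    (by rw [card_map, hRk, hX]) hXne hbig (by
      intro Z hZX hZ
      have h1 : (X ∪ Z).card < 2 * k := by
        have := card_union_le X Z
        omega
      have h2 : {v | v ∉ X ∪ Z} = {v | v ∉ X ∧ v ∉ Z} := by
        ext v
        simp [mem_union]
      rw [← h2]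
      exact hG.2 (X ∪ Z) h1)
    (fun p => (N' p).map e) (fun p => hmapX _) (by
      intro D hDX hDR
      set D' : Finset W := (univ : Finset W).filter fun w => w.1 ∈ D with hD'
      have hD'e : D'.map e = D := by
        ext v
        simp only [hD', mem_map, mem_filter, mem_univ, true_and]
        constructor
        · rintro ⟨w, hw, rfl⟩
          exact hw
        · intro hv
          exact ⟨⟨v, fun h => disjoint_left.mp hDX hv h⟩, hv, rfl⟩
      have h1 := hcrit D' (by
        rw [disjoint_left]
        intro w hw hwR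
        exact absurd (mem_map_of_mem e hwR)
          (disjoint_left.mp hDR (show e w ∈ D from (mem_filter.mp hw).2)))
      unfold dead at h1
      rw [← card_map e, hD'e] at h1
      refine le_trans (le_of_eq ?_) h1
      congr 1
      refine filter_congr fun p _ => ?_
      rw [hX, ← hD'e, ← Finset.map_sdiff, card_map])
  choose a b hab using htwo
  have hex : ∀ p, ∃ u u' : W, u ≠ u' ∧ u ∈ N' p ∧ u' ∈ N' p ∧ u.1 ∈ S p ∧ u'.1 ∈ S p := by
    intro p
    obtain ⟨h1, h2, h3, h4, h5⟩ := hab p
    obtain ⟨u, hu, hua⟩ := mem_map.mp h2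
    obtain ⟨u', hu', hub⟩ := mem_map.mp h3
    refine ⟨u, u', ?_, hu, hu', ?_, ?_⟩
    · rintro rfl
      exact h1 (hua.symm.trans hub)
    · have : u.1 = a p := hua
      rw [this]; exact h4
    · have : u'.1 = b p := hub
      rw [this]; exact h5
  choose u u' hu using hex
  obtain ⟨σ, hσ, hσN⟩ := hre u u' (fun p => ⟨(hu p).2.1, (hu p).2.2.1, (hu p).1⟩) (by
    intro p p' hpp
    have hd := Set.disjoint_left.mp (hdis p p' hpp)
    refine ⟨?_, ?_, ?_⟩
    · intro h
      exact hd (hu p).2.2.2.1 (by rw [h]; exact (hu p').2.2.2.1)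
    · intro h
      exact hd (hu p).2.2.2.1 (by rw [h]; exact (hu p').2.2.2.2)
    · intro h
      exact hd (hu p).2.2.2.2 (by rw [h]; exact (hu p').2.2.2.2))
  have hσb : Function.Bijective σ := Finite.injective_iff_bijective.mp hσ
  let τ : P → P := (Equiv.ofBijective σ hσb).symm
  have hτ : ∀ p, σ (τ p) = p := fun p => (Equiv.ofBijective σ hσb).apply_symm_apply p
  have hτi : Function.Injective τ := (Equiv.ofBijective σ hσb).symm.injective
  refine cycles_of_parts G X (fun p => S (τ p)) (fun p q hpq => hdis _ _ fun h => hpq (hτi h))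
    (fun p => hSX _) (fun p => hconn _) fun p => ?_
  have h1 := hσN (τ p)
  rw [hτ p] at h1
  have hadj : ∀ w : W, w ∈ N p → G.Adj p.1 w.1 := by
    intro w hw
    have := (mem_filter.mp hw).2
    exact (mem_filter.mp this).2.1
  exact ⟨(u (τ p)).1, (u' (τ p)).1, fun h => (hu (τ p)).1 (Subtype.ext h), (hu (τ p)).2.2.2.1,
    (hu (τ p)).2.2.2.2, hadj _ h1.1, hadj _ h1.2⟩

end Pool.Agent.Helper76.DC
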