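import Pool.Agent.Helper76.DC.Main

set_option autoImplicit false

/-!
# Degree profile theorem: disjoint cycles through specified vertices, graph version
-/

namespace Pool.Agent.Helper76.DC

open Finset

open Pool.Agent.DC (KConn DisjCycles outN spread_sep outN_card criterion)

/-- the `k` elements of a finite set with the smallest values -/
theorem exists_top {V : Type} [DecidableEq V] (S : Finset V) (f : V → ℕ) (k : ℕ)
    (hk : k ≤ S.card) :
    ∃ R : Finset V, R ⊆ S ∧ R.card = k ∧ ∀ r ∈ R, ∀ u ∈ S, u ∉ R → f r ≤ f u := by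
  classical
  have hne : (powersetCard k S).Nonempty := powersetCard_nonempty.2 hk
  obtain ⟨R, hR, hmin⟩ := exists_min_image (powersetCard k S) (fun R => ∑ u ∈ R, f u) hne
  obtain ⟨hRS, hRc⟩ := mem_powersetCard.1 hR
  refine ⟨R, hRS, hRc, ?_⟩
  intro r hr u huS hu
  by_contra hlt
  push Not at hlt
  have hu' : u ∉ R.erase r := fun h => hu (mem_of_mem_erase h)
  have hcard : (insert u (R.erase r)).card = k := by
    rw [card_insert_of_notMem hu', card_erase_of_mem hr, hRc]
    have : 0 < k := by rw [← hRc]; exact card_pos.2 ⟨r, hr⟩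
    omega
  have hmem : insert u (R.erase r) ∈ powersetCard k S := by
    refine mem_powersetCard.2 ⟨?_, hcard⟩
    intro v hv
    rcases mem_insert.1 hv with rfl | hv
    · exact huS
    · exact hRS (mem_of_mem_erase hv)
  have h1 := hmin _ hmem
  have h2 : ∑ v ∈ insert u (R.erase r), f v = f u + ∑ v ∈ R.erase r, f v := sum_insert hu'
  have h3 : f r + ∑ v ∈ R.erase r, f v = ∑ v ∈ R, f v := add_sum_erase R f hr
  omega

/-- The criterion for `2k`-connected graphs. -/
theorem crit_apply {V : Type} [Fintype V] [DecidableEq V] (G : SimpleGraph V)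
    [DecidableRel G.Adj] (k : ℕ) (hk : 1 ≤ k) (hV : 3 * k ≤ Fintype.card V)
    (hG : KConn G (2 * k)) (X R : Finset V)
    (hXk : X.card = k) (hRX : R ⊆ Xᶜ) (hRk : R.card = k)
    (hR : ∀ D : Finset V, D.card < k → Disjoint D X → Disjoint D R →
      (X.filter fun x => (outN G X x \ D).card ≤ k).card ≤ D.card) :
    DisjCycles G X := by
  have hXR : Disjoint X R := by
    rw [disjoint_right]
    intro v hv
    have := hRX hv
    rwa [mem_compl] at this
  refine criterion G X R hXR (by rw [hRk, hXk]) (card_pos.1 (by omega)) ?_ ?_ ?_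
  · by_contra hcon
    push Not at hcon
    have h1 : (univ : Finset V) ⊆ X ∪ R := by
      intro v _
      rw [mem_union]
      by_cases hv : v ∈ X
      · exact Or.inl hv
      · exact Or.inr (hcon v hv)
    have h2 := card_le_card h1
    have h3 := card_union_le X R
    rw [card_univ] at h2
    omega
  · intro Z hZX hZ
    have h1 : (X ∪ Z).card < 2 * k := by
      have := card_union_le X Z
      omega
    have h2 : {v | v ∉ X ∪ Z} = {v | v ∉ X ∧ v ∉ Z} := by
      ext v
      simp [mem_union]
    rw [← h2]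
    exact hG.2 (X ∪ Z) h1
  · intro D hDX hDR
    change (X.filter fun x => (outN G X x \ D).card ≤ X.card).card ≤ D.card
    rw [hXk]
    by_cases hkD : k ≤ D.card
    · refine (card_filter_le _ _).trans ?_
      omega
    · push Not at hkD
      exact hR D hkD hDX hDR

/-- **Profile theorem.** For every `j < k`, at most `j` vertices of `X` have at most `k + j`
neighbours outside `X`, with one exceptional value `j₀` for which `j₀ + 1` are allowed. -/
theorem profile_main {V : Type} [Fintype V] [DecidableEq V] (G : SimpleGraph V)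
    [DecidableRel G.Adj] (k j₀ : ℕ) (hk : 1 ≤ k) (hV : 3 * k ≤ Fintype.card V)
    (hG : KConn G (2 * k)) (X : Finset V) (hXk : X.card = k)
    (hprof : ∀ j, j < k → j ≠ j₀ → (X.filter fun x => (outN G X x).card ≤ k + j).card ≤ j)
    (hexc : (X.filter fun x => (outN G X x).card ≤ k + j₀).card ≤ j₀ + 1) :
    DisjCycles G X := by
  classical
  have hXc : (Xᶜ).card = Fintype.card V - k := by rw [card_compl, hXk]
  have hsd : ∀ (D : Finset V) x,
      (outN G X x \ D).card + (outN G X x ∩ D).card = (outN G X x).card :=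
    fun D x => card_sdiff_add_card_inter (outN G X x) D
  have hiD : ∀ (D : Finset V) x, (outN G X x ∩ D).card ≤ D.card :=
    fun D x => card_le_card inter_subset_right
  have hQsub : ∀ D : Finset V, (X.filter fun x => (outN G X x \ D).card ≤ k) ⊆
      X.filter fun x => (outN G X x).card ≤ k + D.card := by
    intro D x hx
    obtain ⟨hxX, hx2⟩ := mem_filter.mp hx
    refine mem_filter.mpr ⟨hxX, ?_⟩
    have h1 := hsd D x
    have h2 := hiD D x
    omega
  set Y := X.filter fun x => (outN G X x).card ≤ k + j₀ with hY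
  by_cases hYc : Y.card = j₀ + 1
  swap
  · -- no exception: any root set
    obtain ⟨R, hRX, hRk⟩ := exists_subset_card_eq (s := Xᶜ) (n := k) (by omega)
    refine crit_apply G k hk hV hG X R hXk hRX hRk fun D hD _ _ => ?_
    refine le_trans (card_le_card (hQsub D)) ?_
    by_cases hDj : D.card = j₀
    · rw [hDj, ← hY]
      omega
    · exact hprof _ hD hDj
  -- the exceptional value
  have hYX : Y ⊆ X := filter_subset _ _
  have hj0 : 1 ≤ j₀ := by
    by_contra hcon
    have h0 : j₀ = 0 := by omega
    obtain ⟨x, hx⟩ := card_pos.1 (show 0 < Y.card by omega)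
    obtain ⟨hxX, hx2⟩ := mem_filter.mp hx
    have := outN_card G hG X x hxX
    omega
  have hjk : j₀ < k := by
    have := card_le_card hYX
    omega
  obtain ⟨x₀, hx₀, hx₀c⟩ : ∃ x₀ ∈ Y, (outN G X x₀).card = k + j₀ := by
    by_contra hcon
    push Not at hcon
    have h1 : Y ⊆ X.filter fun x => (outN G X x).card ≤ k + (j₀ - 1) := by
      intro x hx
      obtain ⟨hxX, hx2⟩ := mem_filter.mp hx
      have h2 := hcon x hx
      refine mem_filter.mpr ⟨hxX, ?_⟩
      omega
    have h2 := card_le_card h1
    have h3 := hprof (j₀ - 1) (by omega) (by omega)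
    omega
  have hnb := nbhd_card G k hV hG X hXk Y hYX ⟨x₀, hx₀⟩
  obtain ⟨y, hy, hyn⟩ : ∃ y ∈ Y, ¬ outN G X y ⊆ outN G X x₀ := by
    by_contra hcon
    push Not at hcon
    have h1 : (Y.biUnion fun x => outN G X x) ⊆ outN G X x₀ := by
      intro v hv
      obtain ⟨x, hx, hv⟩ := mem_biUnion.mp hv
      exact hcon x hx hv
    have h2 := card_le_card h1
    omega
  obtain ⟨z, hz, hzn⟩ := not_subset.mp hyn
  have hsub : ∀ x, outN G X x ⊆ Xᶜ := by
    intro x v hv
    rw [mem_compl]
    exact (mem_filter.mp hv).2.2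
  set I := outN G X y ∩ outN G X x₀ with hI
  obtain ⟨R, hR1, hR2, hR3⟩ : ∃ R : Finset V, R ⊆ outN G X x₀ ∧ R.card = k ∧ (I ⊆ R ∨ R ⊆ I) := by
    rcases le_total k I.card with h | h
    · obtain ⟨R, h1, h2⟩ := exists_subset_card_eq h
      exact ⟨R, h1.trans inter_subset_right, h2, Or.inr h1⟩
    · obtain ⟨R, h1, h2, h3⟩ := exists_subsuperset_card_eq (s := I) (t := outN G X x₀) (n := k)
        inter_subset_right h (by omega)
      exact ⟨R, h2, h3, Or.inl h1⟩
  refine crit_apply G k hk hV hG X R hXk (hR1.trans (hsub x₀)) hR2 fun D hD hDX hDR => ?_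
  by_cases hDj : D.card = j₀
  swap
  · exact le_trans (card_le_card (hQsub D)) (hprof _ hD hDj)
  have hQY : (X.filter fun x => (outN G X x \ D).card ≤ k) ⊆ Y := by
    have h := hQsub D
    rw [hDj] at h
    exact h
  by_contra hcon
  push Not at hcon
  have hQc := card_le_card hQY
  have hQYe := eq_of_subset_of_card_le hQY (by omega)
  have hdead : ∀ x ∈ Y, (outN G X x \ D).card ≤ k := by
    intro x hx
    rw [← hQYe] at hx
    exact (mem_filter.mp hx).2
  -- `D` is `outN x₀ \ R`
  have h1 := hdead x₀ hx₀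
  have h2 := hsd D x₀
  have h3 : D ⊆ outN G X x₀ := by
    have h4 : D.card ≤ (outN G X x₀ ∩ D).card := by omega
    have h5 := eq_of_subset_of_card_le (inter_subset_right (s₁ := outN G X x₀) (s₂ := D)) h4
    rw [← h5]
    exact inter_subset_left
  have h4 : D ⊆ outN G X x₀ \ R := by
    intro v hv
    rw [mem_sdiff]
    exact ⟨h3 hv, disjoint_left.mp hDR hv⟩
  have h5 : D = outN G X x₀ \ R := by
    refine eq_of_subset_of_card_le h4 ?_
    rw [card_sdiff_of_subset hR1]
    omega
  have h6 := hdead y hy
  rcases hR3 with h7 | h7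
  · have h8 : outN G X y \ D = outN G X y := by
      rw [Finset.sdiff_eq_self_iff_disjoint, disjoint_left]
      intro v hv hvD
      rw [h5, mem_sdiff] at hvD
      exact hvD.2 (h7 (mem_inter.mpr ⟨hv, hvD.1⟩))
    have h9 := outN_card G hG X y (hYX hy)
    rw [h8] at h6
    omega
  · have h8 : insert z R ⊆ outN G X y \ D := by
      intro v hv
      rw [mem_sdiff]
      rcases mem_insert.mp hv with rfl | hv
      · exact ⟨hz, fun h => hzn (h3 h)⟩
      · exact ⟨(mem_inter.mp (h7 hv)).1, fun h => disjoint_left.mp hDR h hv⟩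
    have h9 := card_le_card h8
    have h10 : z ∉ R := fun h => hzn (hR1 h)
    rw [card_insert_of_notMem h10] at h9
    omega

end Pool.Agent.Helper76.DC
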