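import Mathlib

set_option autoImplicit false

/-!
# Disjoint cycles through specified vertices: definitions for the square root theorem
-/

namespace Pool.Agent.Helper76.DC

open Finset

/-- the number of players `p` that miss the port `u` -/
def mis {W P : Type} [DecidableEq W] [Fintype P] (N : P → Finset W) (u : W) : ℕ :=
  (univ.filter fun p => u ∉ N p).card

/-- the number of players that have at most `k` ports outside `D` -/
def dead {W P : Type} [DecidableEq W] [Fintype P] (N : P → Finset W) (k : ℕ) (D : Finset W) : ℕ :=
  (univ.filter fun p => (N p \ D).card ≤ k).card

/-- the criterion for the root set `R` -/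
def Crit {W P : Type} [DecidableEq W] [Fintype P] (N : P → Finset W) (k : ℕ) (R : Finset W) :
    Prop :=
  ∀ D : Finset W, Disjoint D R → dead N k D ≤ D.card

end Pool.Agent.Helper76.DC
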